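import Mathlib
import Pool.Agent.H.MP_80c6d6_ag.Node

namespace Pool.Agent.Results.MP_80c6d6_ag.NoLimit

open Filter Topology
open scoped NNReal ENNReal

/-- the map `R → R^{1/q}`, `1 ↦ d^{1/q}`, splits -/
def Splits {R : Type} [CommRing R] (q : ℕ) (d : R) : Prop :=
  ∃ φ : R →+ R, (∀ r s, φ (r ^ q * s) = r * φ s) ∧ φ d = 1

/-- the pair `(R, a^t)` is F-pure (local ring) -/
def FPurePair {R : Type} [CommRing R] (p : ℕ) (a : Ideal R) (t : ℝ≥0) : Prop :=
  ∀ᶠ e : ℕ in atTop, ∃ d ∈ a ^ ⌈(t : ℝ) * ((p : ℝ) ^ e - 1)⌉₊, Splits (p ^ e) d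

/-- the F-pure threshold -/
noncomputable def fpt {R : Type} [CommRing R] (p : ℕ) (a : Ideal R) : ℝ≥0∞ :=
  ⨆ (t : ℝ≥0) (_ : FPurePair p a t), (t : ℝ≥0∞)

open Pool.Agent.H.MP_80c6d6_ag PowerSeries in
theorem result (p : ℕ) [Fact p.Prime] :
    ∃ (R : Type) (_ : CommRing R) (_ : CharP R p) (I : ℕ → Ideal R),
      IsNoetherianRing R ∧ IsLocalRing R ∧ (frobenius R p).Finite ∧ Splits p (1 : R) ∧
      (∀ m, 1 ≤ m → I m ≠ ⊤ ∧ ∃ x ∈ I m, ∀ P ∈ minimalPrimes R, x ∉ P) ∧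
      (∀ m n, 1 ≤ m → 1 ≤ n → I m * I n ≤ I (m + n)) ∧
      ¬ ∃ L : ℝ≥0∞, Tendsto (fun m : ℕ => (m : ℝ≥0∞) * fpt p (I m)) atTop (𝓝 L) := by
  have hp : 1 < p := (Fact.out : p.Prime).one_lt
  have hch : CharP (ZMod p)⟦X⟧ p := charP_of_injective_ringHom (f := C) C_injective p
  have hch2 := charP_node (A := (ZMod p)⟦X⟧) p
  obtain ⟨z, hz⟩ : ∃ z : Node (ZMod p)⟦X⟧, z = diag (C X) := ⟨_, rfl⟩
  obtain ⟨J, hJ⟩ : ∃ J : Ideal (Node (ZMod p)⟦X⟧), J = RingHom.ker c0 := ⟨_, rfl⟩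
  obtain ⟨I, hI⟩ : ∃ I : ℕ → Ideal (Node (ZMod p)⟦X⟧),
    I = fun m => Ideal.span {z} ^ m * J ^ (m % 2) := ⟨_, rfl⟩
  have hpow : Tendsto (fun e : ℕ => (p : ℝ) ^ e - 1) atTop atTop :=
    tendsto_atTop_add_const_right _ (-1) (tendsto_pow_atTop_atTop_of_one_lt (by exact_mod_cast hp))
  have hodd : ∀ k, fpt p (I (2 * k + 1)) = 0 := by
    intro k
    rw [fpt, ← le_zero_iff]
    refine iSup₂_le fun t ht => ?_
    by_contra h0
    have h1 : 0 < (t : ℝ) := by
      rw [NNReal.coe_pos, pos_iff_ne_zero]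
      rintro rfl
      exact h0 (by simp)
    obtain ⟨e, ⟨d, hd, φ, hφ, h2⟩, he⟩ := (ht.and (hpow.eventually_gt_atTop 0)).exists
    have h3 : ⌈(t : ℝ) * ((p : ℝ) ^ e - 1)⌉₊ ≠ 0 := by
      rw [ne_eq, Nat.ceil_eq_zero, not_le]
      exact mul_pos h1 he
    have h4 := Ideal.pow_le_self h3 hd
    rw [hI] at h4
    have h5 := Ideal.mul_le_right h4
    rw [show (2 * k + 1) % 2 = 1 by omega, pow_one, hJ, RingHom.mem_ker] at h5
    have h6 := compat _ (pow_pos (by omega) e) φ hφ d h5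
    rw [h2, map_one] at h6
    exact one_ne_zero h6
  have heven : ∀ k, (1 / 2 : ℝ≥0∞) ≤ ((2 * k + 2 : ℕ) : ℝ≥0∞) * fpt p (I (2 * k + 2)) := by
    intro k
    obtain ⟨m, hm⟩ : ∃ m : ℕ, m = 2 * k + 2 := ⟨_, rfl⟩
    rw [← hm]
    have hm0 : (0 : ℝ) < m := by exact_mod_cast (show 0 < m by omega)
    have h1 : FPurePair p (I m) (1 / (2 * m)) := by
      filter_upwards [hpow.eventually_ge_atTop (2 * m)] with e he
      obtain ⟨c, hc⟩ : ∃ c, c = ⌈((1 / (2 * m) : ℝ≥0) : ℝ) * ((p : ℝ) ^ e - 1)⌉₊ := ⟨_, rfl⟩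
      rw [← hc]
      have h2 : (c : ℝ) < 1 / (2 * m) * ((p : ℝ) ^ e - 1) + 1 := by
        rw [hc]
        push_cast
        exact Nat.ceil_lt_add_one (mul_nonneg (by positivity) (by linarith))
      have h3 : m * c < p ^ e := by
        have h4 : (m : ℝ) * c < m * (1 / (2 * m) * ((p : ℝ) ^ e - 1) + 1) :=
          mul_lt_mul_of_pos_left h2 hm0
        have h5 : m * (1 / (2 * m) * ((p : ℝ) ^ e - 1) + 1) = ((p : ℝ) ^ e - 1) / 2 + m := by
          field_simp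
        have h6 : (m : ℝ) * c < (p : ℝ) ^ e := by linarith
        exact_mod_cast h6
      refine ⟨z ^ (m * c), ?_, ?_⟩
      · rw [hI]
        simp only
        rw [show m % 2 = 0 by omega, pow_zero, mul_one, ← pow_mul]
        exact Ideal.pow_mem_pow (Ideal.mem_span_singleton_self z) _
      · rw [hz]
        exact split_z p e _ h3
    have h2 : ((1 / (2 * m) : ℝ≥0) : ℝ≥0∞) ≤ fpt p (I m) :=
      le_iSup₂ (f := fun (t : ℝ≥0) (_ : FPurePair p (I m) t) => (t : ℝ≥0∞)) _ h1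
    refine le_trans (le_of_eq ?_) (mul_le_mul_right h2 _)
    have h3 : (m : ℝ≥0) * (1 / (2 * m)) = 1 / 2 := by
      have : (m : ℝ≥0) ≠ 0 := by exact_mod_cast (show m ≠ 0 by omega)
      field_simp
    rw [← ENNReal.coe_natCast, ← ENNReal.coe_mul, h3]
    simp
  refine ⟨Node (ZMod p)⟦X⟧, inferInstance, hch2, I, noeth, loc,
    (FFin_node p (FFin_ps p (FFin_ps p (FFin_zmod p)))).finite p, ?_, ?_, ?_, ?_⟩
  · simpa [Splits, Lin] using split_z p 1 0 (by simpa using by omega)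
  · intro m hm
    refine ⟨fun h => ?_, z ^ m * diag X ^ (m % 2), ?_, fun P hP hx => ?_⟩
    · have h1 : (1 : Node (ZMod p)⟦X⟧) ∈ I m := h ▸ Submodule.mem_top
      rw [hI] at h1
      obtain ⟨c, hc⟩ := Ideal.mem_span_singleton.mp
        (Ideal.pow_le_self (show m ≠ 0 by omega) (Ideal.mul_le_left h1))
      have h2 := congrArg (fun f => constantCoeff (c0 f)) hc
      have h3 : c0 z = X := by rw [hz]; exact constantCoeff_C _
      simp [h3] at h2
    · rw [hI]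
      refine Ideal.mul_mem_mul (Ideal.pow_mem_pow (Ideal.mem_span_singleton_self z) _)
        (Ideal.pow_mem_pow ?_ _)
      rw [hJ, RingHom.mem_ker]
      exact constantCoeff_X
    · refine notMem_nonZeroDivisors_of_mem_mem_minimalPrimes hx hP ?_
      rw [hz]
      refine mul_mem (pow_mem (diag_nzd _ fun h => ?_) _) (pow_mem (diag_nzd _ X_ne_zero) _)
      have h1 := congrArg constantCoeff h
      rw [constantCoeff_C, map_zero] at h1
      exact X_ne_zero h1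
  · intro m n _ _
    rw [hI]
    simp only
    rw [mul_mul_mul_comm, ← pow_add, ← pow_add]
    exact Ideal.mul_mono_right (Ideal.pow_le_pow_right (by omega))
  · rintro ⟨L, hL⟩
    have t1 : Tendsto (fun k : ℕ => 2 * k + 1) atTop atTop :=
      tendsto_atTop_mono (fun k => by simp only [id]; omega) tendsto_id
    have t2 : Tendsto (fun k : ℕ => 2 * k + 2) atTop atTop :=
      tendsto_atTop_mono (fun k => by simp only [id]; omega) tendsto_id
    have l1 := hL.comp t1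
    have l2 := hL.comp t2
    simp only [Function.comp_def, hodd, mul_zero] at l1
    have e1 : L = 0 := tendsto_nhds_unique l1 tendsto_const_nhds
    have e2 : (1 / 2 : ℝ≥0∞) ≤ L := ge_of_tendsto' l2 heven
    rw [e1] at e2
    simp at e2

end Pool.Agent.Results.MP_80c6d6_ag.NoLimit
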